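import Pool.Agent.helper66.PX.Spec

/-!
# Project PX, row TR: the trace relation between `Cap` and `RZ`.
-/

set_option autoImplicit false

noncomputable section

namespace Pool.Agent.PX

universe u v w

/-- replacing one entry of a list given by a function. -/
theorem TR_ofFn {A : Type*} (n : ℕ) (f g : Fin n → A) (P : Fin n) (h : ∀ k, k ≠ P → g k = f k) :
    List.ofFn g = (List.ofFn f).take P.val ++ g P :: (List.ofFn f).drop (P.val + 1) := by
  have h1 : List.ofFn g = (List.ofFn f).set P.val (g P) := by
    apply List.ext_getElem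
    · simp
    · intro i hi hi'
      rw [List.getElem_set]
      simp only [List.getElem_ofFn]
      split_ifs with hP
      · have : (⟨i, by simpa using hi⟩ : Fin n) = P := Fin.ext hP.symm
        rw [this]
      · apply h
        intro hE
        exact hP (by rw [← hE])
  rw [h1, List.set_eq_take_append_cons_drop, if_pos (by simp)]

/-- **TR**. -/
theorem TR : TR_stmt.{w} := by
  intro L _ n m x y a b
  unfold RZ Cap
  rw [Finset.mul_sum, Finset.sum_mul, Matrix.trace_sum, Matrix.trace_sum]
  refine Finset.sum_congr rfl fun σ _ => ?_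
  rw [mul_smul_comm, smul_mul_assoc, Matrix.trace_smul, Matrix.trace_smul]
  refine congrArg _ ?_
  have hl := TR_ofFn (m + 1) (fun k : Fin (m + 1) => y k * x (σ k))
    (fun k : Fin (m + 1) => y k * (Fin.cons a (fun i => x i.succ) : Fin (m + 1) → Matrix (Fin n) (Fin n) L) (σ k))
    (σ⁻¹ 0) (by
      intro k hk
      have h0 : σ k ≠ 0 := by
        intro h
        apply hk
        rw [← h]
        simp
      obtain ⟨j, hj⟩ := Fin.exists_succ_eq.mpr h0
      simp only [← hj, Fin.cons_succ])
  have hP : σ (σ⁻¹ 0) = 0 := by simp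
  simp only [hP, Fin.cons_zero] at hl
  rw [hl, List.prod_append, List.prod_cons]
  generalize (List.drop ((σ⁻¹ 0 : Fin (m + 1)).val + 1)
    (List.ofFn fun k : Fin (m + 1) => y k * x (σ k))).prod = D
  generalize (List.take (σ⁻¹ 0 : Fin (m + 1)).val (List.ofFn fun k : Fin (m + 1) => y k * x (σ k))).prod = T
  generalize y (σ⁻¹ 0 : Fin (m + 1)).val = Y
  generalize y (m + 1) = Z
  have h1 : a * (D * Z * b * (T * Y)) = (a * (D * Z * b)) * (T * Y) := by noncomm_ring
  have h2 : T * (Y * a * D) * Z * b = (T * Y) * (a * (D * Z * b)) := by noncomm_ring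
  rw [h1, h2, Matrix.trace_mul_comm]

end Pool.Agent.PX
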